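import Pool.Agent.X289.OD.Ext

/-! Comparison of two representations which agree on subgroups whose indices are prime to the dimension. -/

set_option autoImplicit false
set_option linter.all false

namespace Pool.Agent.X289.OD

open Matrix Module

/-- orbit counting -/
theorem index_dvd {G X : Type*} [Group G] [MulAction G X] [Finite X] (C : Subgroup G)
    (h : ∀ x : X, MulAction.stabilizer G x ≤ C) : C.index ∣ Nat.card X := by
  classical
  have e := MulAction.selfEquivSigmaOrbitsQuotientStabilizer G X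
  haveI : Finite (MulAction.orbitRel.Quotient G X) := Quotient.finite _
  haveI := Fintype.ofFinite (MulAction.orbitRel.Quotient G X)
  haveI : ∀ ω : MulAction.orbitRel.Quotient G X, Finite (G ⧸ MulAction.stabilizer G (Quotient.out ω)) := fun ω =>
    Finite.of_injective (fun q => e.symm ⟨ω, q⟩) fun a b hab => by
      have := e.symm.injective hab
      simpa using this
  rw [Nat.card_congr e, Nat.card_sigma]
  refine Finset.dvd_sum fun ω _ => ?_
  exact Subgroup.index_dvd_of_le (h _)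

section cmp

variable {Γ : Type*} [Group Γ] {k : Type*} [Field k] {n : ℕ}

/-- **Comparison.** -/
theorem compare (hn : 0 < n) (Γ₁ Γ₂ N : Subgroup Γ) [Γ₁.FiniteIndex] [Γ₂.FiniteIndex] [N.Normal] (hN₁ : N ≤ Γ₁)
    (hN₂ : N ≤ Γ₂) (ρ ρ' : Γ →* GL (Fin n) k) (hs : Spans (ρ.comp N.subtype)) (hs' : Spans (ρ'.comp N.subtype))
    (hdet : ∀ g, GeneralLinearGroup.det (ρ g) = GeneralLinearGroup.det (ρ' g))
    (hc₁ : Nat.Coprime Γ₁.index n) (hc₂ : Nat.Coprime Γ₂.index n)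
    (htr : ∀ g x : Γ, x ∈ Γ₁ → g⁻¹ * x * g ∈ Γ₂ →
      (ρ' x : Matrix (Fin n) (Fin n) k).trace = (ρ x : Matrix (Fin n) (Fin n) k).trace) :
    ∃ A : GL (Fin n) k, ∀ g, ρ' g = A * ρ g * A⁻¹ := by
  have hconj : ∀ (g u : Γ), u ∈ N → g⁻¹ * u * g ∈ N := fun g u hu => by
    have := (inferInstance : N.Normal).conj_mem u hu g⁻¹
    rwa [inv_inv] at this
  obtain ⟨A, hA⟩ := conj_of_trace hs hs' fun u => (htr 1 u.1 (hN₁ u.2) (by
    rw [inv_one, one_mul, mul_one]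
    exact hN₂ u.2)).symm
  have hA' : ∀ u ∈ N, ρ' u = A * ρ u * A⁻¹ := fun u hu => hA ⟨u, hu⟩
  -- the character
  have hχ : ∀ g, ∃ c : kˣ, A⁻¹ * ρ' g * A * (ρ g)⁻¹ = z n k c := by
    intro g
    refine scalar_of_comm hs _ (fun u => ?_) hn
    show A⁻¹ * ρ' g * A * (ρ g)⁻¹ * ρ u.1 = ρ u.1 * (A⁻¹ * ρ' g * A * (ρ g)⁻¹)
    have h1 := hA' _ (hconj g u.1 u.2)
    rw [map_mul, map_mul, map_mul, map_mul, map_inv, map_inv, hA' u.1 u.2] at h1
    -- `ρ'(g)⁻¹ (A ρ(u) A⁻¹) ρ'(g) = A (ρ(g)⁻¹ ρ(u) ρ(g)) A⁻¹`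
    have h2 : A * (ρ g)⁻¹ * ρ u.1 = (ρ' g)⁻¹ * (A * ρ u.1 * A⁻¹) * ρ' g * A * (ρ g)⁻¹ := by
      rw [h1]; group
    calc A⁻¹ * ρ' g * A * (ρ g)⁻¹ * ρ u.1 = A⁻¹ * ρ' g * (A * (ρ g)⁻¹ * ρ u.1) := by group
      _ = A⁻¹ * ρ' g * ((ρ' g)⁻¹ * (A * ρ u.1 * A⁻¹) * ρ' g * A * (ρ g)⁻¹) := by rw [h2]
      _ = ρ u.1 * (A⁻¹ * ρ' g * A * (ρ g)⁻¹) := by group
  choose χ₀ hχ₀ using hχ
  have hform : ∀ g, ρ' g = A * (z n k (χ₀ g) * ρ g) * A⁻¹ := by
    intro g
    rw [← hχ₀]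
    group
  have huniq : ∀ (a b : kˣ) (B : GL (Fin n) k), z n k a * B = z n k b * B → a = b := fun a b B h =>
    scalar_inj hn (mul_right_cancel h)
  have hcancel : ∀ B C : GL (Fin n) k, A * B * A⁻¹ = A * C * A⁻¹ → B = C := fun B C h =>
    mul_left_cancel (mul_right_cancel h)
  let χ : Γ →* kˣ :=
    { toFun := χ₀
      map_one' := huniq _ _ (ρ 1) (hcancel _ _ (by
        rw [← hform 1, map_one, map_one, map_one, mul_one, mul_one, mul_inv_cancel]))
      map_mul' := fun a b => huniq _ _ (ρ (a * b)) (hcancel _ _ (by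
        rw [← hform (a * b), map_mul, hform a, hform b, map_mul (z n k), map_mul ρ]
        have h1 := z_comm (χ₀ b) (ρ a)
        calc A * (z n k (χ₀ a) * ρ a) * A⁻¹ * (A * (z n k (χ₀ b) * ρ b) * A⁻¹)
            = A * (z n k (χ₀ a) * (ρ a * z n k (χ₀ b)) * ρ b) * A⁻¹ := by group
          _ = _ := by rw [← h1]; group)) }
  have hform' : ∀ g, ρ' g = A * (z n k (χ g) * ρ g) * A⁻¹ := hform
  have hχn : ∀ g, χ g ^ n = 1 := by
    intro g
    have h1 := congrArg GeneralLinearGroup.det (hform' g)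
    rw [map_mul, map_mul, map_mul, map_inv, det_z, hdet g, mul_comm (GeneralLinearGroup.det A), mul_assoc,
      mul_inv_cancel, mul_one] at h1
    exact right_eq_mul.1 h1
  have hχN : ∀ u ∈ N, χ u = 1 := by
    intro u hu
    refine huniq _ _ (ρ u) (hcancel _ _ ?_)
    rw [← hform' u, hA' u hu, map_one, one_mul]
  have hχ1 : ∀ g y : Γ, y ∈ Γ₁ → g⁻¹ * y * g ∈ Γ₂ → χ y = 1 := by
    intro g y hy hy'
    obtain ⟨u, hu⟩ := exists_trace_ne hs hn (ρ y)
    have h1 : (ρ' (y * u.1) : Matrix (Fin n) (Fin n) k).trace = (ρ (y * u.1) : Matrix (Fin n) (Fin n) k).trace := by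
      refine htr g (y * u.1) (Γ₁.mul_mem hy (hN₁ u.2)) ?_
      have h2 : g⁻¹ * (y * u.1) * g = (g⁻¹ * y * g) * (g⁻¹ * u.1 * g) := by group
      rw [h2]
      exact Γ₂.mul_mem hy' (hN₂ (hconj g u.1 u.2))
    rw [hform' (y * u.1), map_mul χ, hχN u.1 u.2, mul_one, Units.val_mul, Matrix.trace_mul_comm, ← Units.val_mul,
      inv_mul_cancel_left, trace_z] at h1
    have hu' : (ρ (y * u.1) : Matrix (Fin n) (Fin n) k).trace ≠ 0 := by
      rw [map_mul]
      exact hu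
    have h3 : ((χ y : k) - 1) * (ρ (y * u.1) : Matrix (Fin n) (Fin n) k).trace = 0 := by
      rw [sub_mul, one_mul, h1, sub_self]
    exact Units.ext (sub_eq_zero.1 ((mul_eq_zero.1 h3).resolve_right hu'))
  have hstab : ∀ x : (Γ ⧸ Γ₁) × (Γ ⧸ Γ₂), MulAction.stabilizer Γ x ≤ χ.ker := by
    rintro ⟨a, b⟩ x hx
    obtain ⟨a, rfl⟩ := QuotientGroup.mk_surjective a
    obtain ⟨b, rfl⟩ := QuotientGroup.mk_surjective b
    rw [MulAction.mem_stabilizer_iff] at hx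
    have h1 : x • (a : Γ ⧸ Γ₁) = (a : Γ ⧸ Γ₁) := congrArg Prod.fst hx
    have h2 : x • (b : Γ ⧸ Γ₂) = (b : Γ ⧸ Γ₂) := congrArg Prod.snd hx
    rw [MulAction.Quotient.smul_coe, eq_comm, QuotientGroup.eq, smul_eq_mul, ← mul_assoc] at h1 h2
    rw [MonoidHom.mem_ker]
    have h3 := hχ1 (a⁻¹ * b) (a⁻¹ * x * a) h1 (by
      have : (a⁻¹ * b)⁻¹ * (a⁻¹ * x * a) * (a⁻¹ * b) = b⁻¹ * x * b := by group
      rw [this]
      exact h2)
    rw [map_mul, map_mul, map_inv, mul_comm (χ a)⁻¹, mul_assoc, inv_mul_cancel, mul_one] at h3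
    exact h3
  haveI : Finite (Γ ⧸ Γ₁) := Subgroup.finite_quotient_of_finiteIndex
  haveI : Finite (Γ ⧸ Γ₂) := Subgroup.finite_quotient_of_finiteIndex
  have hdvd := index_dvd χ.ker hstab
  rw [Nat.card_prod] at hdvd
  have hcop : Nat.Coprime χ.ker.index n := by
    refine Nat.Coprime.coprime_dvd_left hdvd ?_
    exact Nat.Coprime.mul_left hc₁ hc₂
  have hχ1' : ∀ g, χ g = 1 := by
    intro g
    have h1 : χ g ^ χ.ker.index = 1 := by
      have := Subgroup.pow_index_mem χ.ker g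
      rw [MonoidHom.mem_ker, map_pow] at this
      exact this
    have h2 : orderOf (χ g) ∣ Nat.gcd χ.ker.index n :=
      Nat.dvd_gcd (orderOf_dvd_of_pow_eq_one h1) (orderOf_dvd_of_pow_eq_one (hχn g))
    rw [hcop, Nat.dvd_one, orderOf_eq_one_iff] at h2
    exact h2
  exact ⟨A, fun g => by rw [hform' g, hχ1' g, map_one, one_mul]⟩

end cmp

end Pool.Agent.X289.OD
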