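import Mathlib

/-! Extension of an irreducible representation from a subgroup whose index is prime to the dimension (by transfer). -/

set_option autoImplicit false
set_option linter.all false

namespace Pool.Agent.X289.OD

open Matrix Module

section conj

variable {Γ : Type*} [Group Γ] {k : Type*} [Field k] {n : ℕ}

/-- the matrices of the representation span the matrix algebra -/
def Spans (M : Γ →* GL (Fin n) k) : Prop :=
  Submodule.span k (Set.range fun u : Γ => (M u : Matrix (Fin n) (Fin n) k)) = ⊤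

/-- the algebra homomorphism of the group algebra -/
noncomputable def ah (M : Γ →* GL (Fin n) k) : MonoidAlgebra k Γ →ₐ[k] Matrix (Fin n) (Fin n) k :=
  MonoidAlgebra.lift k (Matrix (Fin n) (Fin n) k) Γ ((Units.coeHom _).comp M)

theorem ah_of (M : Γ →* GL (Fin n) k) (u : Γ) : ah M (MonoidAlgebra.of k Γ u) = (M u : Matrix (Fin n) (Fin n) k) := by
  rw [ah, MonoidAlgebra.lift_of]
  rfl

theorem ah_surj {M : Γ →* GL (Fin n) k} (h : Spans M) : Function.Surjective (ah M) := by
  have h1 : (⊤ : Submodule k (Matrix (Fin n) (Fin n) k)) ≤ LinearMap.range (ah M).toLinearMap := by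
    rw [← h, Submodule.span_le]
    rintro _ ⟨u, rfl⟩
    exact ⟨MonoidAlgebra.of k Γ u, ah_of M u⟩
  intro a
  exact h1 trivial

theorem ah_trace {M M' : Γ →* GL (Fin n) k}
    (htr : ∀ u, (M u : Matrix (Fin n) (Fin n) k).trace = (M' u : Matrix (Fin n) (Fin n) k).trace)
    (x : MonoidAlgebra k Γ) : (ah M x).trace = (ah M' x).trace := by
  induction x using MonoidAlgebra.induction_on with
  | of u => rw [ah_of, ah_of, htr]
  | add x y hx hy => rw [map_add, map_add, Matrix.trace_add, Matrix.trace_add, hx, hy]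
  | smul c x hx => rw [map_smul, map_smul, Matrix.trace_smul, Matrix.trace_smul, hx]

theorem ah_ker {M M' : Γ →* GL (Fin n) k} (h' : Spans M')
    (htr : ∀ u, (M u : Matrix (Fin n) (Fin n) k).trace = (M' u : Matrix (Fin n) (Fin n) k).trace)
    (x : MonoidAlgebra k Γ) (hx : ah M x = 0) : ah M' x = 0 := by
  rw [Matrix.ext_iff_trace_mul_right]
  intro a
  obtain ⟨y, rfl⟩ := ah_surj h' a
  rw [← map_mul, zero_mul, ← ah_trace htr, map_mul, hx, zero_mul]

/-- absolutely irreducible representations with the same traces are conjugate -/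
theorem conj_of_trace {M M' : Γ →* GL (Fin n) k} (h : Spans M) (h' : Spans M')
    (htr : ∀ u, (M u : Matrix (Fin n) (Fin n) k).trace = (M' u : Matrix (Fin n) (Fin n) k).trace) :
    ∃ A : GL (Fin n) k, ∀ u, M' u = A * M u * A⁻¹ := by
  have hker : RingHom.ker (ah M) = RingHom.ker (ah M') := by
    ext x
    rw [RingHom.mem_ker, RingHom.mem_ker]
    exact ⟨ah_ker h' htr x, ah_ker h (fun u => (htr u).symm) x⟩
  let e₁ := Ideal.quotientKerAlgEquivOfSurjective (ah_surj h)
  let e₂ := Ideal.quotientKerAlgEquivOfSurjective (ah_surj h')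
  let q := Ideal.quotientEquivAlgOfEq k hker
  let φ := e₁.symm.trans (q.trans e₂)
  have hφ : ∀ x, φ (ah M x) = ah M' x := by
    intro x
    show e₂ (q (e₁.symm (ah M x))) = ah M' x
    have h1 : e₁.symm (ah M x) = Ideal.Quotient.mk _ x := by
      rw [AlgEquiv.symm_apply_eq]
      rfl
    rw [h1]
    rfl
  let L : Matrix (Fin n) (Fin n) k ≃ₐ[k] Module.End k (Fin n → k) := Matrix.toLinAlgEquiv'
  obtain ⟨T, hT⟩ := (L.symm.trans (φ.trans L)).eq_linearEquivConjAlgEquiv
  have key : ∀ u, L (M' u : Matrix (Fin n) (Fin n) k) ∘ₗ T.toLinearMap =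
      T.toLinearMap ∘ₗ L (M u : Matrix (Fin n) (Fin n) k) := by
    intro u
    have h1 := DFunLike.congr_fun hT (L (M u : Matrix (Fin n) (Fin n) k))
    rw [LinearEquiv.conjAlgEquiv_apply] at h1
    have h2 : (L.symm.trans (φ.trans L)) (L (M u : Matrix (Fin n) (Fin n) k)) =
        L (M' u : Matrix (Fin n) (Fin n) k) := by
      show L (φ (L.symm (L (M u : Matrix (Fin n) (Fin n) k)))) = _
      rw [AlgEquiv.symm_apply_apply, ← ah_of, hφ, ah_of]
    rw [← h2, h1]
    refine LinearMap.ext fun v => ?_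
    show T (L (M u : Matrix (Fin n) (Fin n) k) (T.symm (T v))) = T (L (M u : Matrix (Fin n) (Fin n) k) v)
    rw [LinearEquiv.symm_apply_apply]
  let A : GL (Fin n) k :=
    { val := LinearMap.toMatrix' T.toLinearMap
      inv := LinearMap.toMatrix' T.symm.toLinearMap
      val_inv := by rw [← LinearMap.toMatrix'_comp, LinearEquiv.comp_symm, LinearMap.toMatrix'_id]
      inv_val := by rw [← LinearMap.toMatrix'_comp, LinearEquiv.symm_comp, LinearMap.toMatrix'_id] }
  refine ⟨A, fun u => ?_⟩
  rw [eq_mul_inv_iff_mul_eq]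
  apply Units.ext
  have h3 := congrArg LinearMap.toMatrix' (key u)
  rw [LinearMap.toMatrix'_comp, LinearMap.toMatrix'_comp] at h3
  have h4 : ∀ B : Matrix (Fin n) (Fin n) k, LinearMap.toMatrix' (L B) = B := fun B => LinearMap.toMatrix'_toLin' B
  rw [h4, h4] at h3
  exact h3

/-- spanning is visible in the traces -/
theorem spans_of_trace {M M' : Γ →* GL (Fin n) k} (h : Spans M)
    (htr : ∀ u, (M u : Matrix (Fin n) (Fin n) k).trace = (M' u : Matrix (Fin n) (Fin n) k).trace) : Spans M' := by
  let f : MonoidAlgebra k Γ →ₗ[k] Matrix (Fin n) (Fin n) k := (ah M).toLinearMap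
  let f' : MonoidAlgebra k Γ →ₗ[k] Matrix (Fin n) (Fin n) k := (ah M').toLinearMap
  have hker : LinearMap.ker f' ≤ LinearMap.ker f := fun x hx => ah_ker h (fun u => (htr u).symm) x hx
  let g : LinearMap.range f' →ₗ[k] Matrix (Fin n) (Fin n) k :=
    ((LinearMap.ker f').liftQ f hker) ∘ₗ f'.quotKerEquivRange.symm.toLinearMap
  have hg : Function.Surjective g := by
    intro a
    obtain ⟨x, hx⟩ := ah_surj h a
    refine ⟨f'.quotKerEquivRange (Submodule.Quotient.mk x), ?_⟩
    show ((LinearMap.ker f').liftQ f hker) (f'.quotKerEquivRange.symm (f'.quotKerEquivRange _)) = a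
    rw [LinearEquiv.symm_apply_apply, Submodule.liftQ_apply]
    exact hx
  have h1 : LinearMap.range f' = ⊤ := by
    apply Submodule.eq_top_of_finrank_eq
    refine le_antisymm (Submodule.finrank_le _) ?_
    have h2 := LinearMap.finrank_range_le g
    rw [LinearMap.range_eq_top.2 hg, finrank_top] at h2
    exact h2
  unfold Spans
  rw [eq_top_iff, ← h1]
  rintro _ ⟨x, rfl⟩
  show ah M' x ∈ _
  induction x using MonoidAlgebra.induction_on with
  | of u =>
    rw [ah_of]
    exact Submodule.subset_span ⟨u, rfl⟩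
  | add x y hx hy => rw [map_add]; exact Submodule.add_mem _ hx hy
  | smul c x hx => rw [map_smul]; exact Submodule.smul_mem _ _ hx

/-- Schur's lemma: a matrix that commutes with spanning matrices is scalar -/
theorem scalar_of_comm {M : Γ →* GL (Fin n) k} (h : Spans M) (B : GL (Fin n) k) (hB : ∀ u, B * M u = M u * B)
    (hn : 0 < n) : ∃ c : kˣ, B = GeneralLinearGroup.scalar (Fin n) c := by
  haveI : Nonempty (Fin n) := ⟨⟨0, hn⟩⟩
  have hall : ∀ C : Matrix (Fin n) (Fin n) k, (B : Matrix (Fin n) (Fin n) k) * C = C * B := by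
    intro C
    obtain ⟨x, rfl⟩ := ah_surj h C
    induction x using MonoidAlgebra.induction_on with
    | of u =>
      rw [ah_of]
      exact congrArg (fun z : GL (Fin n) k => (z : Matrix (Fin n) (Fin n) k)) (hB u)
    | add x y hx hy => rw [map_add, mul_add, add_mul, hx, hy]
    | smul c x hx => rw [map_smul, mul_smul_comm, smul_mul_assoc, hx]
  have h1 : (B : Matrix (Fin n) (Fin n) k) ∈ Set.range (Matrix.scalar (Fin n)) :=
    Matrix.mem_range_scalar_of_commute_single fun i j _ => (hall (Matrix.single i j 1)).symm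
  obtain ⟨c, hc⟩ := h1
  have hc0 : c ≠ 0 := by
    rintro rfl
    rw [map_zero] at hc
    exact B.isUnit.ne_zero hc.symm
  exact ⟨Units.mk0 c hc0, Units.ext hc.symm⟩

theorem scalar_inj (hn : 0 < n) : Function.Injective (GeneralLinearGroup.scalar (Fin n) : kˣ →* GL (Fin n) k) := by
  haveI : Nonempty (Fin n) := ⟨⟨0, hn⟩⟩
  intro a b hab
  have h1 : Matrix.scalar (Fin n) (a : k) = Matrix.scalar (Fin n) (b : k) := congrArg Units.val hab
  exact Units.ext (Matrix.scalar_inj.1 h1)

end conj

end Pool.Agent.X289.OD
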