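import Pool.Agent.X289.OD.Core

/-! Extension of an irreducible representation from a subgroup whose index is prime to the dimension (by transfer). -/

set_option autoImplicit false
set_option linter.all false

namespace Pool.Agent.X289.OD

open Matrix Module

section ext

variable {Γ : Type*} [Group Γ] {k : Type*} [Field k] {n : ℕ}

/-- scalar matrices -/
noncomputable abbrev z (n : ℕ) (k : Type*) [Field k] : kˣ →* GL (Fin n) k := GeneralLinearGroup.scalar (Fin n)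

theorem z_comm (c : kˣ) (A : GL (Fin n) k) : z n k c * A = A * z n k c := GeneralLinearGroup.scalar_commute c A

theorem det_z (c : kˣ) : GeneralLinearGroup.det (z n k c) = c ^ n := by
  rw [GeneralLinearGroup.det_scalar, Fintype.card_fin]

theorem trace_z (c : kˣ) (A : GL (Fin n) k) : ((z n k c * A : GL (Fin n) k) : Matrix (Fin n) (Fin n) k).trace =
    (c : k) * (A : Matrix (Fin n) (Fin n) k).trace := by
  have : ((z n k c * A : GL (Fin n) k) : Matrix (Fin n) (Fin n) k) = (c : k) • (A : Matrix (Fin n) (Fin n) k) := by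
    show Matrix.scalar (Fin n) (c : k) * (A : Matrix (Fin n) (Fin n) k) = _
    rw [Matrix.scalar_apply, ← Matrix.smul_eq_diagonal_mul]
  rw [this, Matrix.trace_smul, smul_eq_mul]

/-- spanning matrices detect nonzero matrices by traces -/
theorem exists_trace_ne {M : Γ →* GL (Fin n) k} (h : Spans M) (hn : 0 < n) (B : GL (Fin n) k) :
    ∃ u, ((B * M u : GL (Fin n) k) : Matrix (Fin n) (Fin n) k).trace ≠ 0 := by
  haveI : Nonempty (Fin n) := ⟨⟨0, hn⟩⟩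
  by_contra hcon
  push Not at hcon
  apply B.isUnit.ne_zero
  rw [Matrix.ext_iff_trace_mul_right]
  intro a
  obtain ⟨x, rfl⟩ := ah_surj h a
  rw [zero_mul, Matrix.trace_zero]
  induction x using MonoidAlgebra.induction_on with
  | of u =>
    rw [ah_of]
    exact hcon u
  | add x y hx hy => rw [map_add, mul_add, Matrix.trace_add, hx, hy, add_zero]
  | smul c x hx => rw [map_smul, mul_smul_comm, Matrix.trace_smul, hx, smul_zero]

variable (Γ₁ N : Subgroup Γ) [N.Normal] (r : N →* GL (Fin n) k) (δ : Γ →* kˣ)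

/-- pairs of a group element and a matrix which induces the same conjugation on the image of `N` -/
noncomputable def Ĝ : Subgroup (Γ × GL (Fin n) k) where
  carrier := {p | (∀ u : N, p.2 * r u = r (MulAut.conjNormal p.1 u) * p.2) ∧ GeneralLinearGroup.det p.2 = δ p.1}
  one_mem' := ⟨fun u => by
    show 1 * r u = r (MulAut.conjNormal 1 u) * 1
    rw [map_one, one_mul, mul_one]
    rfl, by
    show GeneralLinearGroup.det 1 = δ 1
    rw [map_one, map_one]⟩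
  mul_mem' := fun {p q} hp hq => ⟨fun u => by
    show p.2 * q.2 * r u = r (MulAut.conjNormal (p.1 * q.1) u) * (p.2 * q.2)
    rw [map_mul, mul_assoc, hq.1, ← mul_assoc, hp.1, mul_assoc]
    rfl, by
    show GeneralLinearGroup.det (p.2 * q.2) = δ (p.1 * q.1)
    rw [map_mul, map_mul, hp.2, hq.2]⟩
  inv_mem' := fun {p} hp => ⟨fun u => by
    show p.2⁻¹ * r u = r (MulAut.conjNormal p.1⁻¹ u) * p.2⁻¹
    have h1 := hp.1 (MulAut.conjNormal p.1⁻¹ u)
    have h2 : MulAut.conjNormal p.1 (MulAut.conjNormal p.1⁻¹ u) = u := by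
      rw [← MulAut.mul_apply, ← map_mul, mul_inv_cancel, map_one]
      rfl
    rw [h2] at h1
    rw [inv_mul_eq_iff_eq_mul, ← mul_assoc, h1, mul_inv_cancel_right], by
    show GeneralLinearGroup.det p.2⁻¹ = δ p.1⁻¹
    rw [map_inv, map_inv, hp.2]⟩

variable {Γ₁ N r δ}

theorem mem_Ĝ {p : Γ × GL (Fin n) k} : p ∈ Ĝ N r δ ↔
    (∀ u : N, p.2 * r u = r (MulAut.conjNormal p.1 u) * p.2) ∧ GeneralLinearGroup.det p.2 = δ p.1 := Iff.rfl

/-- the projection -/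
noncomputable def pr (N : Subgroup Γ) [N.Normal] (r : N →* GL (Fin n) k) (δ : Γ →* kˣ) : Ĝ N r δ →* Γ :=
  (MonoidHom.fst Γ (GL (Fin n) k)).comp (Ĝ N r δ).subtype

theorem pr_surj [IsAlgClosed k] (hn : 0 < n) (hr : Spans r)
    (htr : ∀ (g : Γ) (u : N), (r (MulAut.conjNormal g u) : Matrix (Fin n) (Fin n) k).trace =
      (r u : Matrix (Fin n) (Fin n) k).trace) : Function.Surjective (pr N r δ) := by
  intro g
  have h1 : Spans (r.comp (MulAut.conjNormal g : N ≃* N).toMonoidHom) := by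
    unfold Spans
    have : (Set.range fun u : N => ((r.comp (MulAut.conjNormal g : N ≃* N).toMonoidHom) u : Matrix (Fin n) (Fin n) k)) =
        Set.range fun u : N => (r u : Matrix (Fin n) (Fin n) k) := by
      ext a
      constructor
      · rintro ⟨u, rfl⟩
        exact ⟨MulAut.conjNormal g u, rfl⟩
      · rintro ⟨u, rfl⟩
        refine ⟨(MulAut.conjNormal g : N ≃* N).symm u, ?_⟩
        show (r (MulAut.conjNormal g ((MulAut.conjNormal g : N ≃* N).symm u)) : Matrix (Fin n) (Fin n) k) = _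
        rw [MulEquiv.apply_symm_apply]
    rw [this]
    exact hr
  obtain ⟨A, hA⟩ := conj_of_trace hr h1 fun u => (htr g u).symm
  obtain ⟨c, hc⟩ := IsAlgClosed.exists_pow_nat_eq (((δ g * (GeneralLinearGroup.det A)⁻¹ : kˣ)) : k) hn
  have hc0 : c ≠ 0 := by
    rintro rfl
    rw [zero_pow hn.ne'] at hc
    exact (δ g * (GeneralLinearGroup.det A)⁻¹ : kˣ).ne_zero hc.symm
  let c' : kˣ := Units.mk0 c hc0
  have hc' : c' ^ n = δ g * (GeneralLinearGroup.det A)⁻¹ := Units.ext hc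
  refine ⟨⟨(g, z n k c' * A), fun u => ?_, ?_⟩, rfl⟩
  · show z n k c' * A * r u = r (MulAut.conjNormal g u) * (z n k c' * A)
    have h2 : r (MulAut.conjNormal g u) = A * r u * A⁻¹ := hA u
    rw [h2, ← mul_assoc (A * r u * A⁻¹), ← z_comm, mul_assoc (z n k c') (A * r u * A⁻¹), inv_mul_cancel_right, mul_assoc]
  · show GeneralLinearGroup.det (z n k c' * A) = δ g
    rw [map_mul, det_z, hc', inv_mul_cancel_right]

/-- **Extension by transfer.** -/
theorem extend [IsAlgClosed k] (hn : 0 < n) [Γ₁.FiniteIndex] (hN : N ≤ Γ₁) (ρ₁ : Γ₁ →* GL (Fin n) k)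
    (hspan : Spans (ρ₁.comp (Subgroup.inclusion hN)))
    (hδ : ∀ x : Γ₁, GeneralLinearGroup.det (ρ₁ x) = δ x) (hcop : Nat.Coprime Γ₁.index n)
    (hst : ∀ (g x : Γ) (hx : x ∈ Γ₁) (hx' : g * x * g⁻¹ ∈ Γ₁),
      (ρ₁ ⟨g * x * g⁻¹, hx'⟩ : Matrix (Fin n) (Fin n) k).trace = (ρ₁ ⟨x, hx⟩ : Matrix (Fin n) (Fin n) k).trace) :
    ∃ ρ : Γ →* GL (Fin n) k, (∀ x : Γ₁, ρ x = ρ₁ x) ∧ ∀ g, GeneralLinearGroup.det (ρ g) = δ g := by
  classical
  let r : N →* GL (Fin n) k := ρ₁.comp (Subgroup.inclusion hN)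
  have hr : ∀ u : N, r u = ρ₁ ⟨u.1, hN u.2⟩ := fun u => rfl
  let π := pr N r δ
  have hπ : Function.Surjective π := pr_surj hn hspan (fun g u => by
    rw [hr, hr]
    have h1 : ((MulAut.conjNormal g u : N) : Γ) = g * u.1 * g⁻¹ := MulAut.conjNormal_apply g u
    have h2 := hst g u.1 (hN u.2) (by rw [← h1]; exact hN (MulAut.conjNormal g u).2)
    rw [← h2]
    congr 3)
  -- the graph of `ρ₁`
  have hgr : ∀ x : Γ₁, ((x : Γ), ρ₁ x) ∈ Ĝ N r δ := by
    intro x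
    refine ⟨fun u => ?_, hδ x⟩
    show ρ₁ x * r u = r (MulAut.conjNormal x.1 u) * ρ₁ x
    rw [hr, hr, ← map_mul, ← map_mul]
    congr 1
    apply Subtype.ext
    show x.1 * u.1 = ((MulAut.conjNormal x.1 u : N) : Γ) * x.1
    rw [MulAut.conjNormal_apply, inv_mul_cancel_right]
  let H : Subgroup (Ĝ N r δ) := Γ₁.comap π
  have hHi : H.index = Γ₁.index := Subgroup.index_comap_of_surjective _ hπ
  haveI : H.FiniteIndex := ⟨by rw [hHi]; exact Subgroup.FiniteIndex.index_ne_zero⟩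
  have hHm : ∀ p : H, p.1.1.1 ∈ Γ₁ := fun p => p.2
  -- the scalar
  have hs : ∀ p : H, ∃ c : kˣ, p.1.1.2 = z n k c * ρ₁ ⟨p.1.1.1, hHm p⟩ := by
    intro p
    obtain ⟨c, hc⟩ := scalar_of_comm hspan (p.1.1.2 * (ρ₁ ⟨p.1.1.1, hHm p⟩)⁻¹) (by
      intro u
      show p.1.1.2 * (ρ₁ ⟨p.1.1.1, hHm p⟩)⁻¹ * r u = r u * (p.1.1.2 * (ρ₁ ⟨p.1.1.1, hHm p⟩)⁻¹)
      have h1 := (p.1.2).1 (MulAut.conjNormal p.1.1.1⁻¹ u)
      have h2 := (hgr ⟨p.1.1.1, hHm p⟩).1 (MulAut.conjNormal p.1.1.1⁻¹ u)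
      have h3 : MulAut.conjNormal p.1.1.1 (MulAut.conjNormal p.1.1.1⁻¹ u) = u := by
        rw [← MulAut.mul_apply, ← map_mul, mul_inv_cancel, map_one]
        rfl
      rw [h3] at h1
      have h2' : ρ₁ ⟨p.1.1.1, hHm p⟩ * r (MulAut.conjNormal p.1.1.1⁻¹ u) = r u * ρ₁ ⟨p.1.1.1, hHm p⟩ := by
        have := h2
        show _ = _
        have e : r (MulAut.conjNormal p.1.1.1 (MulAut.conjNormal p.1.1.1⁻¹ u)) = r u := by rw [h3]
        rw [← e]
        exact this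
      have h4 : (ρ₁ ⟨p.1.1.1, hHm p⟩)⁻¹ * r u = r (MulAut.conjNormal p.1.1.1⁻¹ u) * (ρ₁ ⟨p.1.1.1, hHm p⟩)⁻¹ := by
        rw [inv_mul_eq_iff_eq_mul, ← mul_assoc, h2', mul_inv_cancel_right]
      rw [mul_assoc, h4, ← mul_assoc, h1, mul_assoc]) hn
    refine ⟨c, ?_⟩
    rw [← hc, inv_mul_cancel_right]
  choose s₀ hs₀ using hs
  have huniq : ∀ (a b : kˣ) (B : GL (Fin n) k), z n k a * B = z n k b * B → a = b := fun a b B h =>
    scalar_inj hn (mul_right_cancel h)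
  let s : H →* kˣ :=
    { toFun := s₀
      map_one' := huniq _ _ (ρ₁ ⟨(1 : H).1.1.1, hHm 1⟩) (by
        rw [← hs₀ 1, map_one, one_mul]
        have : (⟨(1 : H).1.1.1, hHm 1⟩ : Γ₁) = 1 := rfl
        rw [this, map_one]
        rfl)
      map_mul' := fun p q => huniq _ _ (ρ₁ ⟨(p * q).1.1.1, hHm (p * q)⟩) (by
        rw [← hs₀ (p * q), map_mul]
        have e : ρ₁ ⟨(p * q).1.1.1, hHm (p * q)⟩ = ρ₁ ⟨p.1.1.1, hHm p⟩ * ρ₁ ⟨q.1.1.1, hHm q⟩ := by
          rw [← map_mul]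
          rfl
        rw [e]
        show p.1.1.2 * q.1.1.2 = _
        rw [hs₀ p, hs₀ q]
        have hcomm := z_comm (s₀ q) (ρ₁ ⟨p.1.1.1, hHm p⟩)
        calc z n k (s₀ p) * ρ₁ ⟨p.1.1.1, hHm p⟩ * (z n k (s₀ q) * ρ₁ ⟨q.1.1.1, hHm q⟩)
            = z n k (s₀ p) * (ρ₁ ⟨p.1.1.1, hHm p⟩ * z n k (s₀ q)) * ρ₁ ⟨q.1.1.1, hHm q⟩ := by
              simp only [mul_assoc]
          _ = _ := by rw [← hcomm]; simp only [mul_assoc]) }
  have hsdef : ∀ p : H, p.1.1.2 = z n k (s p) * ρ₁ ⟨p.1.1.1, hHm p⟩ := hs₀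
  have hsn : ∀ p : H, s p ^ n = 1 := by
    intro p
    have h1 := congrArg GeneralLinearGroup.det (hsdef p)
    rw [map_mul, det_z, hδ] at h1
    have h2 : GeneralLinearGroup.det p.1.1.2 = δ p.1.1.1 := p.1.2.2
    rw [h2] at h1
    exact right_eq_mul.1 h1
  let τ : Ĝ N r δ →* kˣ := s.transfer
  haveI : Fintype (Ĝ N r δ ⧸ H) := H.fintypeQuotientOfFiniteIndex
  have hτ : ∀ p : Ĝ N r δ, (∀ (j : ℕ) (t : Ĝ N r δ) (h : t⁻¹ * p ^ j * t ∈ H), s ⟨t⁻¹ * p ^ j * t, h⟩ = 1) → τ p = 1 := by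
    intro p hp
    haveI : Fintype (Quotient (MulAction.orbitRel (Subgroup.zpowers p) (Ĝ N r δ ⧸ H))) := Fintype.ofFinite _
    show s.transfer p = 1
    rw [MonoidHom.transfer_eq_prod_quotient_orbitRel_zpowers_quot]
    exact Finset.prod_eq_one fun q _ => hp _ _ _
  have hτn : ∀ p : Ĝ N r δ, τ p ^ n = 1 := by
    intro p
    haveI : Fintype (Quotient (MulAction.orbitRel (Subgroup.zpowers p) (Ĝ N r δ ⧸ H))) := Fintype.ofFinite _
    show s.transfer p ^ n = 1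
    rw [MonoidHom.transfer_eq_prod_quotient_orbitRel_zpowers_quot, ← Finset.prod_pow]
    exact Finset.prod_eq_one fun q _ => hsn _
  -- central elements
  have hcen : ∀ p : Ĝ N r δ, ∀ c : kˣ, p.1 = (1, z n k c) → τ p = c ^ Γ₁.index := by
    intro p c hp
    have hcomm : ∀ q : Ĝ N r δ, p * q = q * p := by
      intro q
      apply Subtype.ext
      show p.1 * q.1 = q.1 * p.1
      rw [hp]
      refine Prod.ext ?_ ?_
      · show 1 * q.1.1 = q.1.1 * 1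
        rw [one_mul, mul_one]
      · exact z_comm c q.1.2
    have hpH : p ∈ H := by
      show p.1.1 ∈ Γ₁
      rw [hp]
      exact Γ₁.one_mem
    have h1 : τ p = s ⟨p ^ H.index, _⟩ := MonoidHom.transfer_eq_pow s p fun j g₀ _ => by
      have hc : Commute p g₀ := hcomm g₀
      have h2 := (hc.pow_left j).eq
      rw [mul_assoc, h2, inv_mul_cancel_left]
    rw [h1, hHi.symm]
    have h2 : (⟨p ^ H.index, MonoidHom.transfer_eq_pow_aux p fun j g₀ _ => by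
      have hc : Commute p g₀ := hcomm g₀
      have h2 := (hc.pow_left j).eq
      rw [mul_assoc, h2, inv_mul_cancel_left]⟩ : H) = ⟨p, hpH⟩ ^ H.index := rfl
    rw [h2, map_pow]
    congr 1
    refine huniq _ _ 1 ?_
    have h3 := hsdef ⟨p, hpH⟩
    have h4 : ρ₁ ⟨(⟨p, hpH⟩ : H).1.1.1, hHm ⟨p, hpH⟩⟩ = 1 := by
      have : (⟨(⟨p, hpH⟩ : H).1.1.1, hHm ⟨p, hpH⟩⟩ : Γ₁) = 1 := Subtype.ext (by
        show p.1.1 = 1
        rw [hp])
      rw [this, map_one]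
    rw [h4] at h3
    rw [← h3]
    show p.1.2 = z n k c * 1
    rw [hp, mul_one]
  -- elements of the graph
  have hgraph : ∀ x : Γ₁, τ ⟨_, hgr x⟩ = 1 := by
    intro x
    refine hτ _ fun j t h => ?_
    set y : Γ₁ := x ^ j with hy
    have hpj : (⟨_, hgr x⟩ : Ĝ N r δ) ^ j = ⟨_, hgr y⟩ := by
      apply Subtype.ext
      show ((x : Γ), ρ₁ x) ^ j = ((y : Γ), ρ₁ y)
      rw [hy]
      refine Prod.ext ?_ ?_
      · show (x : Γ) ^ j = _
        rfl
      · show (ρ₁ x) ^ j = _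
        rw [map_pow]
    set q : H := ⟨t⁻¹ * (⟨_, hgr x⟩ : Ĝ N r δ) ^ j * t, h⟩ with hq
    set c := s q with hc
    have hq1 : q.1.1.1 = t.1.1⁻¹ * y.1 * t.1.1 := by
      show (t⁻¹ * (⟨_, hgr x⟩ : Ĝ N r δ) ^ j * t).1.1 = _
      rw [hpj]
      rfl
    have hq2 : q.1.1.2 = t.1.2⁻¹ * ρ₁ y * t.1.2 := by
      show (t⁻¹ * (⟨_, hgr x⟩ : Ĝ N r δ) ^ j * t).1.2 = _
      rw [hpj]
      rfl
    set w : Γ₁ := ⟨q.1.1.1, hHm q⟩ with hw
    have hqs : q.1.1.2 = z n k c * ρ₁ w := hsdef q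
    obtain ⟨u, hu⟩ := exists_trace_ne hspan hn (ρ₁ w)
    have hcu : ((z n k c * (ρ₁ w * r u) : GL (Fin n) k) : Matrix (Fin n) (Fin n) k).trace =
        ((ρ₁ w * r u : GL (Fin n) k) : Matrix (Fin n) (Fin n) k).trace := by
      rw [← mul_assoc, ← hqs, hq2]
      have h5 : t.1.2 * r u = r (MulAut.conjNormal t.1.1 u) * t.1.2 := t.2.1 u
      have h6 : t.1.2⁻¹ * ρ₁ y * t.1.2 * r u = t.1.2⁻¹ * (ρ₁ y * r (MulAut.conjNormal t.1.1 u)) * t.1.2 := by
        rw [mul_assoc _ t.1.2, h5]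
        simp only [mul_assoc]
      rw [h6, Units.val_mul, Matrix.trace_mul_comm, ← Units.val_mul, mul_inv_cancel_left]
      have h7 : ρ₁ y * r (MulAut.conjNormal t.1.1 u) = ρ₁ (y * ⟨_, hN (MulAut.conjNormal t.1.1 u).2⟩) := by
        rw [map_mul]
        rfl
      have h8 : ρ₁ w * r u = ρ₁ (w * ⟨u.1, hN u.2⟩) := by
        rw [map_mul]
        rfl
      have h9 : ((y * ⟨_, hN (MulAut.conjNormal t.1.1 u).2⟩ : Γ₁) : Γ) =
          t.1.1 * (w * ⟨u.1, hN u.2⟩ : Γ₁).1 * t.1.1⁻¹ := by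
        show y.1 * ((MulAut.conjNormal t.1.1 u : N) : Γ) = t.1.1 * (w.1 * u.1) * t.1.1⁻¹
        rw [MulAut.conjNormal_apply, hw]
        show _ = t.1.1 * (q.1.1.1 * u.1) * t.1.1⁻¹
        rw [hq1]
        group
      rw [h7, h8]
      have h10 := hst t.1.1 (w * ⟨u.1, hN u.2⟩ : Γ₁).1 (w * ⟨u.1, hN u.2⟩ : Γ₁).2
        (by rw [← h9]; exact (y * ⟨_, hN (MulAut.conjNormal t.1.1 u).2⟩ : Γ₁).2)
      rw [show (w * ⟨u.1, hN u.2⟩ : Γ₁) = ⟨(w * ⟨u.1, hN u.2⟩ : Γ₁).1, (w * ⟨u.1, hN u.2⟩ : Γ₁).2⟩ from rfl, ← h10]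
      congr 3
      exact Subtype.ext h9
    rw [trace_z] at hcu
    have h11 : (c : k) = 1 := by
      have : ((c : k) - 1) * ((ρ₁ w * r u : GL (Fin n) k) : Matrix (Fin n) (Fin n) k).trace = 0 := by
        rw [sub_mul, one_mul, hcu, sub_self]
      exact sub_eq_zero.1 ((mul_eq_zero.1 this).resolve_right hu)
    exact Units.ext h11
  -- Bezout
  obtain ⟨a, b, hab⟩ : ∃ a b : ℤ, a * (Γ₁.index : ℤ) + b * n = 1 := Nat.isCoprime_iff_coprime.2 hcop
  let σ : Ĝ N r δ →* kˣ := τ ^ a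
  have hσ : ∀ p, σ p = τ p ^ a := fun p => rfl
  have hσn : ∀ p, σ p ^ n = 1 := by
    intro p
    rw [hσ, ← zpow_natCast, zpow_comm, zpow_natCast, hτn, _root_.one_zpow]
  let θ : Ĝ N r δ →* GL (Fin n) k :=
    { toFun := fun p => (z n k (σ p))⁻¹ * p.1.2
      map_one' := by
        rw [map_one, map_one, inv_one, one_mul]
        rfl
      map_mul' := fun p q => by
        rw [map_mul, map_mul, _root_.mul_inv_rev]
        show (z n k (σ q))⁻¹ * (z n k (σ p))⁻¹ * (p.1.2 * q.1.2) = _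
        have h1 : (z n k (σ q))⁻¹ * ((z n k (σ p))⁻¹ * p.1.2) = ((z n k (σ p))⁻¹ * p.1.2) * (z n k (σ q))⁻¹ := by
          rw [← map_inv]
          exact z_comm _ _
        calc (z n k (σ q))⁻¹ * (z n k (σ p))⁻¹ * (p.1.2 * q.1.2)
            = ((z n k (σ q))⁻¹ * ((z n k (σ p))⁻¹ * p.1.2)) * q.1.2 := by simp only [mul_assoc]
          _ = _ := by rw [h1, mul_assoc] }
  have hθ : ∀ p, θ p = (z n k (σ p))⁻¹ * p.1.2 := fun p => rfl
  have hker : π.ker ≤ θ.ker := by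
    intro p hp
    have hp1 : p.1.1 = 1 := hp
    have hpH : p ∈ H := by
      show p.1.1 ∈ Γ₁
      rw [hp1]
      exact Γ₁.one_mem
    have h3 := hsdef ⟨p, hpH⟩
    have h4 : ρ₁ ⟨(⟨p, hpH⟩ : H).1.1.1, hHm ⟨p, hpH⟩⟩ = 1 := by
      have : (⟨(⟨p, hpH⟩ : H).1.1.1, hHm ⟨p, hpH⟩⟩ : Γ₁) = 1 := Subtype.ext hp1
      rw [this, map_one]
    rw [h4, mul_one] at h3
    have h5 : p.1 = (1, z n k (s ⟨p, hpH⟩)) := Prod.ext hp1 h3
    have h6 := hcen p _ h5
    rw [MonoidHom.mem_ker, hθ, hσ, h6]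
    have h7 : ((s ⟨p, hpH⟩) ^ Γ₁.index) ^ a = s ⟨p, hpH⟩ := by
      have h8 : (s ⟨p, hpH⟩) ^ (a * (Γ₁.index : ℤ) + b * n) = s ⟨p, hpH⟩ := by rw [hab, zpow_one]
      rw [_root_.zpow_add, mul_comm b, _root_.zpow_mul _ (n : ℤ) b, zpow_natCast, hsn, _root_.one_zpow, mul_one, mul_comm a, _root_.zpow_mul,
        zpow_natCast] at h8
      exact h8
    rw [h7]
    show (z n k (s ⟨p, hpH⟩))⁻¹ * p.1.2 = 1
    rw [inv_mul_eq_one]
    exact h3.symm
  let ρ : Γ →* GL (Fin n) k := π.liftOfSurjective hπ ⟨θ, hker⟩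
  have hρ : ∀ p, ρ (π p) = θ p := fun p => MonoidHom.liftOfRightInverse_comp_apply π _ _ ⟨θ, hker⟩ p
  refine ⟨ρ, fun x => ?_, fun g => ?_⟩
  · have h1 := hρ ⟨_, hgr x⟩
    have h2 : π ⟨_, hgr x⟩ = (x : Γ) := rfl
    rw [← h2, h1, hθ, hσ, hgraph, _root_.one_zpow, map_one, inv_one, one_mul]
  · obtain ⟨p, rfl⟩ := hπ g
    rw [hρ, hθ, map_mul, map_inv, det_z, hσn, inv_one, one_mul]
    exact p.2.2

end ext

end Pool.Agent.X289.OD
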