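import Pool.Agent.X289.OD.Cmp
import Pool.Agent.X289.TF.LG

/-! Representations of the absolute Galois group of a number field from extensions whose degrees are prime to the
dimension. -/

set_option autoImplicit false
set_option linter.all false

namespace Pool.Agent.X289.OD

open Topology Filter NumberField IsDedekindDomain Polynomial
open Pool.Agent.W401.Cheb
open Pool.Agent.X289.TF
open Matrix Module

variable {K : Type} [Field K] [NumberField K] {Ω : Type} [Field Ω] [IsAlgClosed Ω] [TopologicalSpace Ω]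
  [IsTopologicalRing Ω] [T2Space Ω] {n : ℕ}

theorem fin_index (H : Subgroup (GK K)) (ho : IsOpen (H : Set (GK K))) : H.FiniteIndex := by
  haveI : Finite (GK K ⧸ H) := Subgroup.quotient_finite_of_isOpen H ho
  exact Subgroup.finiteIndex_of_finite_quotient

/-- the determinants -/
theorem det_eq {S : Set (HeightOneSpectrum (𝓞 K))} (hS : S.Finite)
    {Q : HeightOneSpectrum (𝓞 K) → Polynomial Ω} (δ : GK K →* Ωˣ) (hδc : Continuous δ)
    (hδQ : ∀ v, v ∉ S → ∀ σ, IsFrob v σ → (δ σ⁻¹ : Ω) = (-1) ^ n * (Q v).coeff 0) {H : Subgroup (GK K)}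
    (hH : IsOpen (H : Set (GK K))) {R : H →* GL (Fin n) Ω} (hRc : Continuous R) (hR : COn H R S Q) (x : H) :
    GeneralLinearGroup.det (R x) = δ x := by
  apply Units.ext
  show (R x : Matrix (Fin n) (Fin n) Ω).det = (δ x : Ω)
  refine cheb_eq hS hH (fun y => (R y : Matrix (Fin n) (Fin n) Ω).det) (fun y => (δ y : Ω))
    (Units.continuous_val.comp hRc).matrix_det
    (Units.continuous_val.comp (hδc.comp continuous_subtype_val)) (fun v hv y hy => ?_) x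
  have h1 := hδQ v hv _ hy
  rw [inv_inv] at h1
  rw [h1, Matrix.det_eq_sign_charpoly_coeff, (hR v hv).2 y hy, Fintype.card_fin]

/-- **Extensions of degree prime to the dimension.** -/
theorem nf_coprime (hn : 0 < n) {S : Set (HeightOneSpectrum (𝓞 K))} (hS : S.Finite)
    {Q : HeightOneSpectrum (𝓞 K) → Polynomial Ω} (δ : GK K →* Ωˣ) (hδc : Continuous δ)
    (hδQ : ∀ v, v ∉ S → ∀ σ, IsFrob v σ → (δ σ⁻¹ : Ω) = (-1) ^ n * (Q v).coeff 0)
    {ι : Type} (i₀ : ι) (Hs : ι → Subgroup (GK K)) (hopen : ∀ i, IsOpen (Hs i : Set (GK K)))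
    (hcop : ∀ i, Nat.Coprime (Hs i).index n)
    (R : ∀ i, Hs i →* GL (Fin n) Ω) (hRc : ∀ i, Continuous (R i)) (hRQ : ∀ i, COn (Hs i) (R i) S Q)
    (N : ι → Subgroup (GK K)) (hNn : ∀ i, (N i).Normal) (hN : ∀ i, N i ≤ Hs i) (hN₀ : ∀ i, N i ≤ Hs i₀)
    (hsp : ∀ i, Spans ((R i).comp (Subgroup.inclusion (hN i)))) :
    ∃ ρ : GK K →* GL (Fin n) Ω, Continuous ρ ∧ (∀ g, GeneralLinearGroup.det (ρ g) = δ g) ∧
      (∀ i, ∃ A : GL (Fin n) Ω, ∀ x : Hs i, ρ x = A * R i x * A⁻¹) ∧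
      ∀ ρ' : GK K →* GL (Fin n) Ω, (∀ g, GeneralLinearGroup.det (ρ' g) = δ g) →
        (∃ i, ∀ x : Hs i, (ρ' x : Matrix (Fin n) (Fin n) Ω).trace = (R i x : Matrix (Fin n) (Fin n) Ω).trace) →
        ∃ A : GL (Fin n) Ω, ∀ g, ρ' g = A * ρ g * A⁻¹ := by
  haveI : ∀ i, (Hs i).FiniteIndex := fun i => fin_index _ (hopen i)
  haveI := hNn
  -- traces agree
  have hcons : ∀ i j (c g : GK K) (hg : g ∈ Hs i) (hg' : c⁻¹ * g * c ∈ Hs j),
      (R j ⟨c⁻¹ * g * c, hg'⟩ : Matrix (Fin n) (Fin n) Ω).trace = (R i ⟨g, hg⟩ : Matrix (Fin n) (Fin n) Ω).trace :=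
    fun i j c g hg hg' => consistent_conj hS (hopen i) (hopen j) (hRc i) (hRc j) (hRQ i) (hRQ j) c g hg hg'
  have hcons1 : ∀ i j (g : GK K) (hg : g ∈ Hs i) (hg' : g ∈ Hs j),
      (R j ⟨g, hg'⟩ : Matrix (Fin n) (Fin n) Ω).trace = (R i ⟨g, hg⟩ : Matrix (Fin n) (Fin n) Ω).trace := by
    intro i j g hg hg'
    have e : (1 : GK K)⁻¹ * g * 1 = g := by rw [inv_one, one_mul, mul_one]
    have h1 := hcons i j 1 g hg (by rw [e]; exact hg')
    rw [← h1]
    congr 3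
  have hsp₀ : ∀ i, Spans ((R i₀).comp (Subgroup.inclusion (hN₀ i))) := fun i =>
    spans_of_trace (hsp i) fun u => hcons1 _ _ u.1 (hN₀ i u.2) (hN i u.2)
  -- extensions
  have hext : ∀ i, ∃ ρ : GK K →* GL (Fin n) Ω, (∀ x : Hs i, ρ x = R i x) ∧
      ∀ g, GeneralLinearGroup.det (ρ g) = δ g := by
    intro i
    refine extend hn (hN i) (R i) (hsp i) (fun x => det_eq hS δ hδc hδQ (hopen i) (hRc i) (hRQ i) x) (hcop i)
      fun g x hx hx' => ?_
    have e : (g⁻¹)⁻¹ * x * g⁻¹ = g * x * g⁻¹ := by rw [inv_inv]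
    have h1 := hcons i i g⁻¹ x hx (by rw [e]; exact hx')
    rw [← h1]
    congr 3
  choose P hP hPδ using hext
  have hPc : ∀ i, Continuous (P i) := fun i =>
    continuous_of_open (hopen i) (fun g hg => hP i ⟨g, hg⟩) (hRc i)
  have hspP : ∀ i, Spans ((P i).comp (N i).subtype) := by
    intro i
    have e : (P i).comp (N i).subtype = (R i).comp (Subgroup.inclusion (hN i)) := by
      ext1 u
      exact hP i ⟨u.1, hN i u.2⟩
    rw [e]
    exact hsp i
  have hspP₀ : ∀ i, Spans ((P i₀).comp (N i).subtype) := by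
    intro i
    have e : (P i₀).comp (N i).subtype = (R i₀).comp (Subgroup.inclusion (hN₀ i)) := by
      ext1 u
      exact hP i₀ ⟨u.1, hN₀ i u.2⟩
    rw [e]
    exact hsp₀ i
  have htrc : ∀ (ρ : GK K →* GL (Fin n) Ω) (g x : GK K), (ρ (g⁻¹ * x * g) : Matrix (Fin n) (Fin n) Ω).trace =
      (ρ x : Matrix (Fin n) (Fin n) Ω).trace := by
    intro ρ g x
    rw [map_mul, map_mul, map_inv, Units.val_mul, Matrix.trace_mul_comm, ← Units.val_mul, mul_inv_cancel_left]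
  have hcmp : ∀ i, ∃ A : GL (Fin n) Ω, ∀ g, P i₀ g = A * P i g * A⁻¹ := by
    intro i
    refine compare hn (Hs i) (Hs i₀) (N i) (hN i) (hN₀ i) (P i) (P i₀) (hspP i) (hspP₀ i)
      (fun g => by rw [hPδ, hPδ]) (hcop i) (hcop i₀) fun g x hx hx' => ?_
    have h1 := hcons i i₀ g x hx hx'
    rw [← htrc (P i₀) g x]
    have e1 := hP i₀ ⟨g⁻¹ * x * g, hx'⟩
    have e2 := hP i ⟨x, hx⟩
    show (P i₀ (g⁻¹ * x * g) : Matrix (Fin n) (Fin n) Ω).trace = (P i x : Matrix (Fin n) (Fin n) Ω).trace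
    have e1' : P i₀ (g⁻¹ * x * g) = R i₀ ⟨g⁻¹ * x * g, hx'⟩ := e1
    have e2' : P i x = R i ⟨x, hx⟩ := e2
    rw [e1', e2', h1]
  refine ⟨P i₀, hPc i₀, hPδ i₀, fun i => ?_, fun ρ' hρ' htr => ?_⟩
  · obtain ⟨A, hA⟩ := hcmp i
    exact ⟨A, fun x => by rw [hA, hP]⟩
  · obtain ⟨i, hi⟩ := htr
    have hs' : Spans (ρ'.comp (N i).subtype) :=
      spans_of_trace (hspP i) fun u => by
        have e2' : P i u.1 = R i ⟨u.1, hN i u.2⟩ := hP i ⟨u.1, hN i u.2⟩
        show (P i u.1 : Matrix (Fin n) (Fin n) Ω).trace = (ρ' u.1 : Matrix (Fin n) (Fin n) Ω).trace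
        rw [e2']
        exact (hi ⟨u.1, hN i u.2⟩).symm
    obtain ⟨B, hB⟩ := compare hn (Hs i) (Hs i) (N i) (hN i) (hN i) (P i) ρ' (hspP i) hs'
      (fun g => by rw [hPδ, hρ']) (hcop i) (hcop i) fun g x hx hx' => by
        rw [show P i x = R i ⟨x, hx⟩ from hP i ⟨x, hx⟩]
        exact hi ⟨x, hx⟩
    obtain ⟨A, hA⟩ := hcmp i
    refine ⟨B * A⁻¹, fun g => ?_⟩
    rw [hB, hA]
    group

end Pool.Agent.X289.OD
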