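import Pool.Agent.X289.OD.Main

/-! Orthogonal representations of odd dimension: extension from arbitrary subgroups. -/

set_option autoImplicit false
set_option linter.all false

namespace Pool.Agent.X289.OD

open Matrix Module

section group

variable {Γ : Type*} [Group Γ] {k : Type*} [Field k] {n : ℕ}

/-- the transposed matrix -/
def tp (A : GL (Fin n) k) : GL (Fin n) k where
  val := (A : Matrix (Fin n) (Fin n) k)ᵀ
  inv := ((A⁻¹ : GL (Fin n) k) : Matrix (Fin n) (Fin n) k)ᵀ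
  val_inv := by rw [← Matrix.transpose_mul, ← Units.val_mul, inv_mul_cancel, Units.val_one, Matrix.transpose_one]
  inv_val := by rw [← Matrix.transpose_mul, ← Units.val_mul, mul_inv_cancel, Units.val_one, Matrix.transpose_one]

theorem tp_mul (A B : GL (Fin n) k) : tp (A * B) = tp B * tp A :=
  Units.ext (Matrix.transpose_mul _ _)

theorem tp_one : tp (1 : GL (Fin n) k) = 1 := Units.ext Matrix.transpose_one

theorem tp_inv (A : GL (Fin n) k) : tp A⁻¹ = (tp A)⁻¹ := by
  rw [eq_inv_iff_mul_eq_one, ← tp_mul, mul_inv_cancel, tp_one]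

theorem tp_z (c : kˣ) : tp (z n k c) = z n k c := by
  apply Units.ext
  show (Matrix.scalar (Fin n) (c : k))ᵀ = Matrix.scalar (Fin n) (c : k)
  rw [Matrix.scalar_apply, Matrix.diagonal_transpose]

theorem det_tp (A : GL (Fin n) k) : GeneralLinearGroup.det (tp A) = GeneralLinearGroup.det A :=
  Units.ext (Matrix.det_transpose _)

/-- the special orthogonal group -/
def InSO (A : GL (Fin n) k) : Prop := tp A * A = 1 ∧ GeneralLinearGroup.det A = 1

theorem InSO.one : InSO (1 : GL (Fin n) k) := ⟨by rw [tp_one, mul_one], map_one _⟩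

theorem InSO.mul {A B : GL (Fin n) k} (hA : InSO A) (hB : InSO B) : InSO (A * B) := by
  refine ⟨?_, by rw [map_mul, hA.2, hB.2, one_mul]⟩
  rw [tp_mul, mul_assoc, ← mul_assoc (tp A), hA.1, one_mul, hB.1]

theorem InSO.tp_eq {A : GL (Fin n) k} (hA : InSO A) : tp A = A⁻¹ := eq_inv_of_mul_eq_one_left hA.1

theorem InSO.inv {A : GL (Fin n) k} (hA : InSO A) : InSO A⁻¹ := by
  refine ⟨?_, by rw [map_inv, hA.2, inv_one]⟩
  rw [tp_inv, hA.tp_eq, inv_inv, mul_inv_cancel]

/-- scalar matrices in the group -/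
theorem InSO.scalar (hn : Odd n) (h0 : 0 < n) {c : kˣ} (h : InSO (z n k c)) : c = 1 := by
  have h1 : c * c = 1 := by
    apply scalar_inj h0
    have := h.1
    rw [tp_z, ← map_mul] at this
    rw [this, map_one]
  have h2 : c ^ n = 1 := by rw [← det_z]; exact h.2
  obtain ⟨m, rfl⟩ := hn
  rw [pow_succ, pow_mul, pow_two, h1, one_pow, one_mul] at h2
  exact h2

/-- normalisation of an intertwining matrix -/
theorem normalise [IsAlgClosed k] (hn : Odd n) {r r' : Γ →* GL (Fin n) k} (hs : Spans r) (hr : ∀ u, InSO (r u))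
    (hr' : ∀ u, InSO (r' u)) {A : GL (Fin n) k} (hA : ∀ u, r' u = A * r u * A⁻¹) :
    ∃ B : GL (Fin n) k, InSO B ∧ ∀ u, r' u = B * r u * B⁻¹ := by
  have h0 : 0 < n := hn.pos
  obtain ⟨c, hc⟩ := scalar_of_comm hs (tp A * A) (fun u => by
    have h1 := (hr' u).1
    rw [hA u, tp_mul, tp_mul, tp_inv, (hr u).tp_eq] at h1
    have h2 : (r u)⁻¹ * (tp A * A) * r u = tp A * A := by
      have h3 : (tp A)⁻¹ * ((r u)⁻¹ * tp A) * (A * r u * A⁻¹) = 1 := h1
      calc (r u)⁻¹ * (tp A * A) * r u = tp A * ((tp A)⁻¹ * ((r u)⁻¹ * tp A) * (A * r u * A⁻¹)) * A := by group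
        _ = _ := by rw [h3, mul_one]
    calc tp A * A * r u = r u * ((r u)⁻¹ * (tp A * A) * r u) := by group
      _ = _ := by rw [h2]) h0
  have hc' : tp A * A = z n k c := hc
  obtain ⟨m, hm⟩ := IsAlgClosed.exists_pow_nat_eq ((c⁻¹ : kˣ) : k) (n := 2) (by norm_num)
  have hm0 : m ≠ 0 := by
    rintro rfl
    rw [zero_pow (by norm_num)] at hm
    exact (c⁻¹ : kˣ).ne_zero hm.symm
  let μ : kˣ := Units.mk0 m hm0
  have hμ : μ * μ = c⁻¹ := Units.ext (by rw [← pow_two]; exact hm)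
  have h1 : tp (z n k μ * A) * (z n k μ * A) = 1 := by
    rw [tp_mul, tp_z]
    calc tp A * z n k μ * (z n k μ * A) = tp A * (z n k μ * z n k μ) * A := by group
      _ = tp A * (A * z n k c⁻¹) := by rw [← map_mul, hμ, mul_assoc, z_comm]
      _ = 1 := by rw [← mul_assoc, hc', ← map_mul, mul_inv_cancel, map_one]
  set A' := z n k μ * A with hA'
  set ε := GeneralLinearGroup.det A' with hε
  have h2 : ε * ε = 1 := by
    have := congrArg GeneralLinearGroup.det h1
    rwa [map_mul, det_tp, map_one] at this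
  refine ⟨z n k ε * A', ⟨?_, ?_⟩, fun u => ?_⟩
  · rw [tp_mul, tp_z]
    calc tp A' * z n k ε * (z n k ε * A') = tp A' * (z n k ε * z n k ε) * A' := by group
      _ = 1 := by rw [← map_mul, h2, map_one, mul_one, h1]
  · rw [map_mul, det_z, ← hε]
    obtain ⟨m, hm⟩ := hn
    rw [hm, pow_succ, pow_mul, pow_two, h2, one_pow, one_mul, h2]
  · rw [hA u, hA', ← mul_assoc, ← map_mul]
    have h3 := z_comm (ε * μ) A
    calc A * r u * A⁻¹ = A * r u * (z n k (ε * μ) * (z n k (ε * μ))⁻¹) * A⁻¹ := by group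
      _ = A * (r u * z n k (ε * μ)) * ((z n k (ε * μ))⁻¹ * A⁻¹) := by group
      _ = A * (z n k (ε * μ) * r u) * ((z n k (ε * μ))⁻¹ * A⁻¹) := by rw [z_comm (ε * μ) (r u)]
      _ = (A * z n k (ε * μ)) * r u * (A * z n k (ε * μ))⁻¹ := by group
      _ = _ := by rw [← h3]

variable (N : Subgroup Γ) [N.Normal]

/-- intertwining matrices -/
def Intw (r : N →* GL (Fin n) k) (g : Γ) (A : GL (Fin n) k) : Prop :=
  ∀ u : N, A * r u = r (MulAut.conjNormal g u) * A

variable {N}

theorem intw_unique (hn : Odd n) {r : N →* GL (Fin n) k} (hs : Spans r) {g : Γ} {A B : GL (Fin n) k}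
    (hA : Intw N r g A) (hB : Intw N r g B) (hA' : InSO A) (hB' : InSO B) : A = B := by
  have h0 : 0 < n := hn.pos
  obtain ⟨c, hc⟩ := scalar_of_comm hs (B⁻¹ * A) (fun u => by
    rw [mul_assoc, hA u, ← mul_assoc]
    have h1 := hB u
    have h2 : B⁻¹ * r (MulAut.conjNormal g u) = r u * B⁻¹ := by
      rw [inv_mul_eq_iff_eq_mul, ← mul_assoc, h1, mul_inv_cancel_right]
    rw [h2, mul_assoc]) h0
  have h3 : InSO (z n k c) := by
    rw [show z n k c = B⁻¹ * A from hc.symm]
    exact hB'.inv.mul hA'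
  rw [h3.scalar hn h0, map_one, inv_mul_eq_one] at hc
  exact hc.symm

theorem intw_mul {r : N →* GL (Fin n) k} {g h : Γ} {A B : GL (Fin n) k} (hA : Intw N r g A) (hB : Intw N r h B) :
    Intw N r (g * h) (A * B) := by
  intro u
  rw [map_mul, mul_assoc, hB u, ← mul_assoc, hA, mul_assoc]
  rfl

/-- **Extension**, orthogonal case -/
theorem extendO [IsAlgClosed k] (hn : Odd n) {Γ₁ : Subgroup Γ} (hN : N ≤ Γ₁) (ρ₁ : Γ₁ →* GL (Fin n) k)
    (hO : ∀ x, InSO (ρ₁ x)) (hspan : Spans (ρ₁.comp (Subgroup.inclusion hN)))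
    (hst : ∀ (g : Γ) (u : N), (ρ₁ ⟨_, hN (MulAut.conjNormal g u).2⟩ : Matrix (Fin n) (Fin n) k).trace =
      (ρ₁ ⟨_, hN u.2⟩ : Matrix (Fin n) (Fin n) k).trace) :
    ∃ ρ : Γ →* GL (Fin n) k, (∀ x : Γ₁, ρ x = ρ₁ x) ∧ ∀ g, InSO (ρ g) := by
  let r : N →* GL (Fin n) k := ρ₁.comp (Subgroup.inclusion hN)
  have hr : ∀ u : N, r u = ρ₁ ⟨u.1, hN u.2⟩ := fun u => rfl
  have hex : ∀ g : Γ, ∃ A : GL (Fin n) k, InSO A ∧ Intw N r g A := by
    intro g
    let r' : N →* GL (Fin n) k := r.comp (MulAut.conjNormal g : N ≃* N).toMonoidHom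
    have h1 : Spans r' := by
      unfold Spans
      have : (Set.range fun u : N => (r' u : Matrix (Fin n) (Fin n) k)) =
          Set.range fun u : N => (r u : Matrix (Fin n) (Fin n) k) := by
        ext a
        constructor
        · rintro ⟨u, rfl⟩
          exact ⟨MulAut.conjNormal g u, rfl⟩
        · rintro ⟨u, rfl⟩
          refine ⟨(MulAut.conjNormal g : N ≃* N).symm u, ?_⟩
          show (r (MulAut.conjNormal g ((MulAut.conjNormal g : N ≃* N).symm u)) : Matrix (Fin n) (Fin n) k) = _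
          rw [MulEquiv.apply_symm_apply]
      rw [this]
      exact hspan
    obtain ⟨A, hA⟩ := conj_of_trace (M := r) (M' := r') hspan h1 fun u => (hst g u).symm
    obtain ⟨B, hB, hB'⟩ := normalise hn (r := r) (r' := r') hspan (fun u => hO _) (fun u => hO _) hA
    refine ⟨B, hB, fun u => ?_⟩
    have h2 : r (MulAut.conjNormal g u) = B * r u * B⁻¹ := hB' u
    rw [h2, inv_mul_cancel_right]
  choose A hA hA' using hex
  let ρ : Γ →* GL (Fin n) k :=
    { toFun := A
      map_one' := intw_unique hn hspan (g := 1) (hA' 1) (fun u => by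
        rw [map_one, one_mul, mul_one]
        rfl) (hA 1) InSO.one
      map_mul' := fun g h => intw_unique hn hspan (hA' (g * h)) (intw_mul (hA' g) (hA' h)) (hA _)
        ((hA g).mul (hA h)) }
  refine ⟨ρ, fun x => ?_, fun g => hA g⟩
  refine intw_unique hn hspan (hA' x) (fun u => ?_) (hA _) (hO x)
  show ρ₁ x * r u = r (MulAut.conjNormal x.1 u) * ρ₁ x
  rw [hr, hr, ← map_mul, ← map_mul]
  congr 1
  apply Subtype.ext
  show x.1 * u.1 = ((MulAut.conjNormal x.1 u : N) : Γ) * x.1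
  rw [MulAut.conjNormal_apply, inv_mul_cancel_right]

/-- comparison, orthogonal case -/
theorem compareO [IsAlgClosed k] (hn : Odd n) (ρ ρ' : Γ →* GL (Fin n) k) (hO : ∀ g, InSO (ρ g)) (hO' : ∀ g, InSO (ρ' g))
    (hs : Spans (ρ.comp N.subtype))
    (htr : ∀ u ∈ N, (ρ u : Matrix (Fin n) (Fin n) k).trace = (ρ' u : Matrix (Fin n) (Fin n) k).trace) :
    ∃ A : GL (Fin n) k, InSO A ∧ ∀ g, ρ' g = A * ρ g * A⁻¹ := by
  have hs' : Spans (ρ'.comp N.subtype) := spans_of_trace hs fun u => htr u.1 u.2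
  obtain ⟨A, hA⟩ := conj_of_trace hs hs' fun u => htr u.1 u.2
  obtain ⟨B, hB, hB'⟩ := normalise hn hs (fun u => hO _) (fun u => hO' _) hA
  refine ⟨B, hB, fun g => ?_⟩
  have hconj : ∀ (g : Γ) (u : N), ((MulAut.conjNormal g u : N) : Γ) = g * u.1 * g⁻¹ := fun g u =>
    MulAut.conjNormal_apply g u
  refine intw_unique hn hs' (g := g) (fun u => ?_) (fun u => ?_) (hO' g) ((hB.mul (hO g)).mul hB.inv)
  · show ρ' g * ρ' u.1 = ρ' ((MulAut.conjNormal g u : N) : Γ) * ρ' g
    rw [← map_mul, ← map_mul, hconj, inv_mul_cancel_right]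
  · have h1 : (ρ'.comp N.subtype) (MulAut.conjNormal g u) = B * ρ (g * u.1 * g⁻¹) * B⁻¹ := by
      rw [hB' (MulAut.conjNormal g u)]
      show B * ρ ((MulAut.conjNormal g u : N) : Γ) * B⁻¹ = _
      rw [hconj]
    have h2 : (ρ'.comp N.subtype) u = B * ρ u.1 * B⁻¹ := hB' u
    rw [h1, h2, map_mul, map_mul, map_inv]
    group

end group

end Pool.Agent.X289.OD
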