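import Pool.Agent.X289.OD.Orth

/-! Orthogonal Galois representations of odd dimension from arbitrary extensions. -/

set_option autoImplicit false
set_option linter.all false

namespace Pool.Agent.X289.OD

open Topology Filter NumberField IsDedekindDomain Polynomial
open Pool.Agent.W401.Cheb
open Pool.Agent.X289.TF
open Matrix Module

variable {K : Type} [Field K] [NumberField K] {Ω : Type} [Field Ω] [IsAlgClosed Ω] [TopologicalSpace Ω]
  [IsTopologicalRing Ω] [T2Space Ω] {n : ℕ}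

/-- **Arbitrary extensions, orthogonal representations of odd dimension.** -/
theorem nf_orth (hn : Odd n) {S : Set (HeightOneSpectrum (𝓞 K))} (hS : S.Finite)
    {Q : HeightOneSpectrum (𝓞 K) → Polynomial Ω}
    {ι : Type} (i₀ : ι) (Hs : ι → Subgroup (GK K)) (hopen : ∀ i, IsOpen (Hs i : Set (GK K)))
    (R : ∀ i, Hs i →* GL (Fin n) Ω) (hRc : ∀ i, Continuous (R i)) (hRO : ∀ i x, InSO (R i x))
    (hRQ : ∀ i, COn (Hs i) (R i) S Q)
    (N : ι → Subgroup (GK K)) (hNn : ∀ i, (N i).Normal) (hN : ∀ i, N i ≤ Hs i) (hN₀ : ∀ i, N i ≤ Hs i₀)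
    (hsp : ∀ i, Spans ((R i).comp (Subgroup.inclusion (hN i)))) :
    ∃ ρ : GK K →* GL (Fin n) Ω, Continuous ρ ∧ (∀ g, InSO (ρ g)) ∧
      (∀ i, ∃ A : GL (Fin n) Ω, InSO A ∧ ∀ x : Hs i, ρ x = A * R i x * A⁻¹) ∧
      ∀ ρ' : GK K →* GL (Fin n) Ω, (∀ g, InSO (ρ' g)) →
        (∃ i, ∀ x : Hs i, (ρ' x : Matrix (Fin n) (Fin n) Ω).trace = (R i x : Matrix (Fin n) (Fin n) Ω).trace) →
        ∃ A : GL (Fin n) Ω, InSO A ∧ ∀ g, ρ' g = A * ρ g * A⁻¹ := by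
  haveI := hNn
  have hcons : ∀ i j (c g : GK K) (hg : g ∈ Hs i) (hg' : c⁻¹ * g * c ∈ Hs j),
      (R j ⟨c⁻¹ * g * c, hg'⟩ : Matrix (Fin n) (Fin n) Ω).trace = (R i ⟨g, hg⟩ : Matrix (Fin n) (Fin n) Ω).trace :=
    fun i j c g hg hg' => consistent_conj hS (hopen i) (hopen j) (hRc i) (hRc j) (hRQ i) (hRQ j) c g hg hg'
  have hcons1 : ∀ i j (g : GK K) (hg : g ∈ Hs i) (hg' : g ∈ Hs j),
      (R j ⟨g, hg'⟩ : Matrix (Fin n) (Fin n) Ω).trace = (R i ⟨g, hg⟩ : Matrix (Fin n) (Fin n) Ω).trace := by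
    intro i j g hg hg'
    have e : (1 : GK K)⁻¹ * g * 1 = g := by rw [inv_one, one_mul, mul_one]
    have h1 := hcons i j 1 g hg (by rw [e]; exact hg')
    rw [← h1]
    congr 3
  have hsp₀ : ∀ i, Spans ((R i₀).comp (Subgroup.inclusion (hN₀ i))) := fun i =>
    spans_of_trace (hsp i) fun u => hcons1 _ _ u.1 (hN₀ i u.2) (hN i u.2)
  have hext : ∀ i, ∃ ρ : GK K →* GL (Fin n) Ω, (∀ x : Hs i, ρ x = R i x) ∧ ∀ g, InSO (ρ g) := by
    intro i
    refine extendO hn (hN i) (R i) (hRO i) (hsp i) fun g u => ?_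
    have e : ((MulAut.conjNormal g u : N i) : GK K) = (g⁻¹)⁻¹ * u.1 * g⁻¹ := by
      rw [MulAut.conjNormal_apply, inv_inv]
    have h1 := hcons i i g⁻¹ u.1 (hN i u.2) (by rw [← e]; exact hN i (MulAut.conjNormal g u).2)
    rw [← h1]
    congr 3
  choose P hP hPO using hext
  have hPc : ∀ i, Continuous (P i) := fun i =>
    continuous_of_open (hopen i) (fun g hg => hP i ⟨g, hg⟩) (hRc i)
  have hspP : ∀ i, Spans ((P i).comp (N i).subtype) := by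
    intro i
    have e : (P i).comp (N i).subtype = (R i).comp (Subgroup.inclusion (hN i)) := by
      ext1 u
      exact hP i ⟨u.1, hN i u.2⟩
    rw [e]
    exact hsp i
  have hcmp : ∀ i, ∃ A : GL (Fin n) Ω, InSO A ∧ ∀ g, P i₀ g = A * P i g * A⁻¹ := by
    intro i
    refine compareO hn (N := N i) (P i) (P i₀) (hPO i) (hPO i₀) (hspP i) fun u hu => ?_
    have h1 := hcons1 i i₀ u (hN i hu) (hN₀ i hu)
    have e1 : P i₀ u = R i₀ ⟨u, hN₀ i hu⟩ := hP i₀ ⟨u, hN₀ i hu⟩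
    have e2 : P i u = R i ⟨u, hN i hu⟩ := hP i ⟨u, hN i hu⟩
    rw [e1, e2, h1]
  refine ⟨P i₀, hPc i₀, hPO i₀, fun i => ?_, fun ρ' hρ' htr => ?_⟩
  · obtain ⟨A, hA1, hA⟩ := hcmp i
    exact ⟨A, hA1, fun x => by rw [hA, hP]⟩
  · obtain ⟨i, hi⟩ := htr
    obtain ⟨B, hB1, hB⟩ := compareO hn (N := N i) (P i) ρ' (hPO i) hρ' (hspP i) fun u hu => by
      rw [show P i u = R i ⟨u, hN i hu⟩ from hP i ⟨u, hN i hu⟩]
      exact (hi ⟨u, hN i hu⟩).symm
    obtain ⟨A, hA1, hA⟩ := hcmp i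
    refine ⟨B * A⁻¹, hB1.mul hA1.inv, fun g => ?_⟩
    rw [hB, hA]
    group

end Pool.Agent.X289.OD
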